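import Pool.Agent.Helper66.FT.Anc
import Pool.Agent.Helper66.FS.Main
import Pool.Agent.Helper61A.GKSL

/-!
# PEPS approximation of all gapped families that are prepared by local dissipation

Let `Ψ` be the ground states of a gapped family with unique ground state on the tori (no spectral
hypothesis, no frustration-freeness, no commutativity). Suppose that for all large `L` some local
Lindblad dynamics (a sum of Lindblad superoperators of the boxes of side `R`, not necessarily
translation invariant, piecewise constant in time), possibly with the help of ancillary spins of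
local dimension `a`, drives an initial pure state `χ_L` to a state `ρ_L` whose fidelity with
`Ψ_L ⊗ η_L` is at least `exp (-C (log L)^k)`, for SOME unit vector `η_L` of the ancillas; here the
range `R` is at most `C (log L)^j`, there are at most `exp (C (log L)^k)` pieces and

* each site is active for a time at most `C (log L)^k`,

while the total time is at most `exp (C (log L)^k)`, so that for `k = 1` it may be any power of the
number of sites. (A site `u` is active in a piece unless the Hamiltonian and the jump operators of the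
box at `u` vanish in that piece.) Thus the dynamics is either fast, or it sweeps over the torus, as the
sequential circuits do which connect different phases of matter. Let
`κ ≥ max (k, 2 j) + k + 2 j`. The initial vectors `χ_L` are PEPS, or
unit vectors with good PEPS approximations, or the ground states of another gapped family for which
the conclusion of the open problem holds with the exponent `κ`. Then the conclusion of the open
problem holds for `Ψ` with the same exponent `κ`: for every `c > 0`, some PEPS of bond dimension at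
most `exp (C' (log L)^κ)` is within `L ^ (-c)` of `Ψ_L`, and even within `exp (-s (log L)^κ)`.

So the conclusion of the open problem, with the exponent `κ`, is inherited by all the gapped ground
states in the same phase of matter, when phases are defined by fast local dissipative evolutions, and
also between the phases that are connected by sequential ones. For
initial product states, bounded range, local time `O (log L)` and fidelity `L ^ (-C)` (for example if
the ground states are reached by rapid mixing) the bond dimension is `exp (O ((log L)^2))`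
(`j = 0`, `k = 1`, `κ = 2`).

Sketch of the proof. The operators on the torus are written as vectors of a doubled system of local
dimension `d ^ 2` (`a = 1` for simplicity), on which the generator of the dynamics is a sum of local
terms, which are not Hermitian. The starting theorem of `Pool.Agent.TH235` on products
`∏ (1 + s g_u / M)` of Hermitian terms has an algebraic core (a truncation of the number of uses of
each site, in any normed algebra), which is here extended to terms that depend on time and site,
with an error governed by the largest local time only, and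
applied in the algebra of the superoperators with the norm dual to the numerical radius of the
functionals `X ↦ tr (b X)` on pure states; in this norm the positive trace preserving maps are
contractions, whatever the dimension. This gives tensor network operators of quasi-polynomial bond
dimension for the evolution, hence a vector `x` of the doubled system, a PEPS of quasi-polynomial bond
dimension, close to the vector of the state `ρ_L` in this norm. It need not be the vector of a
positive operator, and therefore it is no approximation of a mixed state; but its overlap with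
`Ψ_L ⊗ (conj Ψ_L)` is at least `exp (-C (log L)^k) / 2`, while its Hilbert space norm is at most
`3 / 2`. The slices of `x` in the second factor are a purified mixed state with a good fidelity with
`Ψ_L`, which is amplified by the theorem of `Pool.Agent.Results.MP_953b23_mp.OverlapBoosting` using
the gap of `Ψ`.
-/

set_option autoImplicit false
set_option linter.unusedSectionVars false

open scoped BigOperators Matrix
open Finset Pool.Agent.TH235.PP Pool.Agent.Results.MP_953b23_mp.OverlapBoosting
  Pool.Agent.Helper99.PE Pool.Agent.Helper66.FD Pool.Agent.Helper66.FT Pool.Agent.Helper66.FS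

namespace Pool.Agent.Results.MP_953b23_mp.FastDissipation

/-- The initial vectors: either unit vectors which for every `b > 0` are approximated within
`exp (-b (log L)^k)` by PEPS of bond dimension `exp (C (log L)^κ)`, for instance PEPS themselves; or
the ground states of a gapped family for which the conclusion of the open problem holds, with the
exponent `κ`. -/
def Initial {d : ℕ} (χ : ∀ L : ℕ, (Site L → Fin d) → ℂ) (k κ : ℕ) : Prop :=
  ((∃ L₀ : ℕ, ∀ (L : ℕ) [NeZero L], L₀ ≤ L → normSq (χ L) = 1) ∧
    ∀ b : ℝ, 0 < b → ∃ C : ℝ, Approx χ κ C fun L => Real.exp (-(b * Real.log L ^ k))) ∨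
  ∃ (R' : ℕ) (h' : BoxOp d R') (Δ' : ℝ), GappedFamily h' Δ' χ ∧
    ∀ c : ℝ, 0 < c → ∃ C : ℝ, Approx χ κ C fun L => (L : ℝ) ^ (-c)

theorem log_pow_small (C : ℝ) (k : ℕ) :
    ∃ L₀ : ℕ, ∀ L : ℕ, L₀ ≤ L → C * Real.log L ^ k ≤ L := by
  have h1 := (Real.isLittleO_pow_log_id_atTop (n := k)).comp_tendsto
    (tendsto_natCast_atTop_atTop (R := ℝ))
  have h2 := h1.def (inv_pos.2 (by positivity : 0 < |C| + 1))
  obtain ⟨L₀, hL₀⟩ := Filter.eventually_atTop.1 h2
  refine ⟨L₀, fun L hL => ?_⟩
  have h3 := hL₀ L hL
  simp only [Function.comp_apply, id_eq, Real.norm_eq_abs, abs_of_nonneg (Nat.cast_nonneg L :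
    (0 : ℝ) ≤ L)] at h3
  have h4 : |Real.log L ^ k| * (|C| + 1) ≤ L := by
    have h5 := mul_le_mul_of_nonneg_right h3 (by positivity : 0 ≤ |C| + 1)
    have h6 : (|C| + 1)⁻¹ * (L : ℝ) * (|C| + 1) = L := by field_simp
    rwa [h6] at h5
  calc C * Real.log L ^ k ≤ |C * Real.log L ^ k| := le_abs_self _
    _ = |C| * |Real.log L ^ k| := abs_mul _ _
    _ ≤ |Real.log L ^ k| * (|C| + 1) := by
        have := abs_nonneg (Real.log L ^ k)
        linarith
    _ ≤ L := h4

theorem initial_acc {d k κ : ℕ} (hk : 1 ≤ κ) (hkκ : k ≤ κ) {χ : ∀ L : ℕ, (Site L → Fin d) → ℂ}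
    (hχ : Initial χ k κ) :
    (∃ L₀ : ℕ, ∀ (L : ℕ) [NeZero L], L₀ ≤ L → normSq (χ L) = 1) ∧
      ∀ b : ℝ, 0 < b → ∃ C : ℝ, Approx χ κ C fun L => Real.exp (-(b * Real.log L ^ k)) := by
  rcases hχ with hχ | ⟨R', h', Δ', hG, hc⟩
  · exact hχ
  · refine ⟨norm_family hG, fun b hb => ?_⟩
    have hacc : ∀ b : ℝ, 0 < b → ∃ C : ℝ, Approx χ κ C fun L =>
        Real.exp (-(b * Real.log L ^ κ)) :=
      ((Pool.Agent.Y159.PepsScale.equivK hG κ hk).out 0 2).1 hc
    obtain ⟨C, L₀, hC⟩ := hacc b hb
    refine ⟨C, max 3 L₀, fun L _ hL => ?_⟩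
    obtain ⟨D, φ, h1, h2, h3⟩ := hC L ((le_max_right _ _).trans hL)
    refine ⟨D, φ, h1, h2, h3.trans ?_⟩
    beta_reduce
    apply Real.exp_le_exp.2
    have h4 := pow_le_pow_right₀ (log_ge_one ((le_max_left _ _).trans hL)) hkκ
    have h5 := mul_le_mul_of_nonneg_left h4 hb.le
    linarith

/-- **Theorem.** The conclusion of the open problem, with the exponent `κ`, holds for all gapped
families which are prepared, with a fidelity `exp (-C (log L)^k)` and possibly with ancillas, by local
Lindblad dynamics in which each site is active for a time at most `C (log L)^k`, from PEPS or from the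
ground states of gapped families for which the conclusion of the open problem holds with the exponent
`κ`. -/
theorem result (d R : ℕ) (h : BoxOp d R) (Δ : ℝ) (Ψ : ∀ L : ℕ, (Site L → Fin d) → ℂ)
    (hF : GappedFamily h Δ Ψ) (j k κ : ℕ) (hk : 1 ≤ k) (hκ : max k (2 * j) + k + 2 * j ≤ κ)
    (a : ℕ) (χ : ∀ L : ℕ, (Site L → Fin (d * a)) → ℂ) (η : ∀ L : ℕ, (Site L → Fin a) → ℂ)
    (hχ : Initial χ k κ)
    (hη : ∃ L₀ : ℕ, ∀ (L : ℕ) [NeZero L], L₀ ≤ L → normSq (η L) = 1)
    (hD : ∃ C : ℝ, LocallyDriven χ (fun L => stack (Ψ L) (η L)) j k C) :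
    (∀ c : ℝ, 0 < c → ∃ C : ℝ, Approx Ψ κ C fun L => (L : ℝ) ^ (-c)) ∧
      ∀ s : ℝ, 0 < s → ∃ C : ℝ, Approx Ψ κ C fun L => Real.exp (-(s * Real.log L ^ κ)) := by
  have hkκ : k ≤ κ := by omega
  obtain ⟨⟨L₁, hL₁⟩, hapx⟩ := initial_acc (hk.trans hkκ) hkκ hχ
  obtain ⟨C, L₂, hL₂⟩ := hD
  obtain ⟨L₃, hL₃⟩ := norm_family hF
  obtain ⟨L₆, hL₆⟩ := hη
  set C0 : ℝ := |C| + 1 with hC0
  obtain ⟨C1, L₄, hL₄⟩ := hapx (C0 + 4) (by positivity)
  obtain ⟨L₅, hL₅⟩ := log_pow_small C j
  refine mixed_all hF (hk.trans hkκ) (mixed
    (C := 2 * |C1| + (17 + 3 * C0 + 4 * ((d * a : ℕ) : ℝ) * C0 ^ 2) * (105 * C0 + 24) * C0 ^ 2 +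
      C0 + 2)
    ⟨max 3 (max (max L₁ L₂) (max L₃ (max L₄ (max L₅ L₆)))), fun L _ hL => ?_⟩)
  simp only [max_le_iff] at hL
  obtain ⟨h3, ⟨hl1, hl2⟩, hl3, hl4, hl5, hl6⟩ := hL
  have hχ1 := hL₁ L hl1
  have hΨ1 := hL₃ L hl3
  have hη1 := hL₆ L hl6
  obtain ⟨R, m, T, τ, ρ, r1, r2, r3, r4, r4', r5, r6⟩ := hL₂ L hl2
  obtain ⟨D0, φ, hD0, hφ, herr⟩ := hL₄ L hl4
  rw [sqrt_normSq] at herr
  beta_reduce at herr r6
  have hlog := log_ge_one h3
  have hl : 1 ≤ Real.log L ^ k := one_le_pow₀ hlog
  have hw : 1 ≤ Real.log L ^ j := one_le_pow₀ hlog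
  have hE : 1 ≤ Real.log L ^ κ := one_le_pow₀ hlog
  have hll : Real.log L ≤ Real.log L ^ k := by
    calc Real.log L = Real.log L ^ 1 := (pow_one _).symm
      _ ≤ Real.log L ^ k := pow_le_pow_right₀ hlog hk
  have hlv : Real.log L ^ k ≤ Real.log L ^ (max k (2 * j)) :=
    pow_le_pow_right₀ hlog (le_max_left _ _)
  have hwv : (Real.log L ^ j) ^ 2 ≤ Real.log L ^ (max k (2 * j)) := by
    rw [← pow_mul, mul_comm j 2]
    exact pow_le_pow_right₀ hlog (le_max_right _ _)
  have hvE : Real.log L ^ (max k (2 * j)) * Real.log L ^ k * (Real.log L ^ j) ^ 2 ≤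
      Real.log L ^ κ := by
    rw [← pow_mul, ← pow_add, ← pow_add, mul_comm j 2]
    exact pow_le_pow_right₀ hlog hκ
  have hRL : R ≤ L := by
    have := r2.trans (hL₅ L hl5)
    exact_mod_cast this
  have hΘ : normSq (stack (Ψ L) (η L)) = 1 := by
    rw [stack_eq, normSq_stack, hΨ1, hη1, one_mul]
  have hd : 0 < d * a := by
    rcases Nat.eq_zero_or_pos (d * a) with h0 | h0
    · exfalso
      have he : IsEmpty (Fin (d * a)) := by rw [h0]; infer_instance
      have hs : IsEmpty (Site L → Fin (d * a)) := ⟨fun s => he.false (s 0)⟩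
      unfold normSq at hΘ
      rw [Finset.univ_eq_empty, Finset.sum_empty] at hΘ
      exact zero_ne_one hΘ
    · exact h0
  generalize Real.log L ^ (max k (2 * j)) = v at *
  generalize Real.log L ^ k = l at *
  generalize Real.log L ^ j = w at *
  generalize Real.log L ^ κ = E at *
  have hCC : ∀ z : ℝ, 1 ≤ z → C * z ≤ C0 * z := fun z hz => mul_le_mul_of_nonneg_right (by
    have := le_abs_self C
    linarith) (by linarith)
  obtain ⟨D, x, x1, x2, x3, x4⟩ := main_one' Pool.Agent.Helper61A.GK.gksl hd h3 (C0 := C0)
    (C1 := |C1|) (l := l) (v := v) (w := w) (E := E)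
    (by have := abs_nonneg C; linarith) (abs_nonneg _) hl hll hw hlv hwv hvE hχ1 hΘ
    (hD0.trans (Real.exp_le_exp.2 (mul_le_mul_of_nonneg_right (le_abs_self _) (by linarith))))
    hφ herr r1 hRL (r2.trans (hCC w hw)) (r3.trans (Real.exp_le_exp.2 (hCC l hl)))
    (r4.trans (Real.exp_le_exp.2 (hCC l hl))) (fun u => (r4' u).trans (hCC l hl)) r5 ((Real.exp_le_exp.2 (by linarith [hCC l hl])).trans r6)
  rw [rk_stack] at x4
  refine ⟨a * (d * a), (d * a) * (d * a), e4 d a, stack (η L) fun s =>
    (starRingEnd ℂ) (stack (Ψ L) (η L) s), D, 0, x, 1, ?_, x1, x2, Circuit.one, ?_, ?_, ?_⟩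
  · rw [stack_eq, normSq_stack, normSq_conj, hη1, hΘ, one_mul]
  · rw [pow_zero]
    exact Real.one_le_exp (by positivity)
  · rw [Matrix.one_mulVec]
    exact x3
  · rw [Matrix.one_mulVec]
    exact x4

end Pool.Agent.Results.MP_953b23_mp.FastDissipation
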