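import Pool.Agent.Helper99.PE.Crit

/-!
# PEPS approximation of all invertible gapped families

Let `Ψ` be the ground states of a gapped family with unique ground state on the tori (no spectral
hypothesis, no frustration-freeness, no commutativity). Suppose that for all large `L` there are SOME
unit vector `Ψ'_L` of a second layer of spins (of any local dimension `a`, which may depend on `L`; it
need not be a ground state of anything), a PEPS `φ` (for instance a product state) and a quantum
circuit `U` on the two layers, of quasi-polynomial cost `(d a) ^ (∑ r_i ^ 2)` (the gates of the `i`-th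
layer of the circuit act on disjoint boxes of side `r_i`; they are arbitrary operators), such that
`U φ` has overlap at least `exp (-C (log L)^k)` with `Ψ_L ⊗ Ψ'_L`. Then the conclusion of the open
problem holds for `Ψ`, with bond dimension `exp (C' (log L)^k)` for every error `L ^ (-c)` and even for
every error `exp (-s (log L)^k)`.

If `φ` is a product state then the hypothesis says that `Ψ` is INVERTIBLE: stacked with some `Ψ'` it is
equivalent to a product state by a circuit, up to the overlap. (Overlap one, and bounded `a`,
`∑ r_i ^ 2`, is allowed: then the bond dimension is polynomial, `k = 1`.)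

The obvious way from an approximation of `Ψ ⊗ Ψ'` to one of `Ψ`, projecting the second layer on a
product state, multiplies the error by a factor exponentially large in `L ^ 2`. Here the outcome of a
measurement of the second layer gives only a state with a small overlap with `Ψ`, which is then
amplified by the theorem of `Pool.Agent.Results.MP_953b23_mp.OverlapBoosting` (in the form of
`Pool.Agent.Y159.PepsScale`), which uses the gap of `Ψ`.
-/

set_option autoImplicit false
set_option linter.unusedSectionVars false

open scoped BigOperators Matrix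
open Finset Pool.Agent.TH235.PP Pool.Agent.Results.MP_953b23_mp.OverlapBoosting

namespace Pool.Agent.Results.MP_953b23_mp.InvertibleFamilies

open Pool.Agent.Helper99.PE

/-- For all large `L` there are a local dimension `a`, a unit vector `Ψ'`, a PEPS `φ` of bond
dimension at most `exp (C (log L)^k)` on the stack and a circuit `U` of cost at most
`exp (C (log L)^k)` such that the normalisation of `U φ` has overlap at least `exp (-C (log L)^k)` with
`Ψ L ⊗ Ψ'`. (Product vectors `φ` are the PEPS of bond dimension one.) -/
def StackOverlap {d : ℕ} (Ψ : ∀ L : ℕ, (Site L → Fin d) → ℂ) (k : ℕ) (C : ℝ) : Prop :=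
  ∃ L₀ : ℕ, ∀ (L : ℕ) [NeZero L], L₀ ≤ L →
    ∃ (a : ℕ) (Ψ' : (Site L → Fin a) → ℂ) (D n : ℕ) (φ : (Site L → Fin (d * a)) → ℂ)
      (U : TorOp (d * a) L),
      normSq Ψ' = 1 ∧ (D : ℝ) ≤ Real.exp (C * Real.log L ^ k) ∧ IsPEPS D φ ∧
      Circuit n U ∧ ((d * a : ℕ) : ℝ) ^ n ≤ Real.exp (C * Real.log L ^ k) ∧
      0 < normSq (U *ᵥ φ) ∧
      Real.exp (-(C * Real.log L ^ k)) * Real.sqrt (normSq (U *ᵥ φ)) ≤
        ‖ip (stack (Ψ L) Ψ') (U *ᵥ φ)‖

/-- **Theorem.** The conclusion of the open problem holds for all gapped families which are, stacked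
with some vectors, approximately prepared by circuits from PEPS, in particular for all invertible
families. -/
theorem result (d R : ℕ) (h : BoxOp d R) (Δ : ℝ) (Ψ : ∀ L : ℕ, (Site L → Fin d) → ℂ)
    (hF : GappedFamily h Δ Ψ) (k : ℕ) (hk : 1 ≤ k) (hS : ∃ C : ℝ, StackOverlap Ψ k C) :
    (∀ c : ℝ, 0 < c → ∃ C : ℝ, Approx Ψ k C fun L => (L : ℝ) ^ (-c)) ∧
      ∀ s : ℝ, 0 < s → ∃ C : ℝ, Approx Ψ k C fun L => Real.exp (-(s * Real.log L ^ k)) := by
  obtain ⟨C, L₀, hL₀⟩ := hS
  refine mixed_all hF hk (mixed (C := C) ⟨L₀, fun L _ hL => ?_⟩)
  obtain ⟨a, Ψ', D, n, φ, U, hh⟩ := hL₀ L hL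
  exact ⟨a, d * a, finProdFinEquiv, Ψ', D, n, φ, U, hh⟩

end Pool.Agent.Results.MP_953b23_mp.InvertibleFamilies
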