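import Pool.Agent.Helper99.PE.Crit

/-!
# PEPS approximation of stacks of gapped families

Stacks `Ψ₁ ⊗ ⋯ ⊗ Ψ_m` of gapped families with unique ground state on the tori (no spectral
hypothesis). The conclusion of the open problem holds for the stack if and only if it holds for each
of the layers, and if and only if the stack has overlap at least `exp (-C (log L)^k)` with vectors
obtained by circuits of cost `exp (C (log L)^k)` from PEPS of bond dimension `exp (C (log L)^k)`. So a
counterexample to the open problem remains one after stacking it with any gapped families, and no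
tensor power of a counterexample has quasi-polynomial PEPS approximations.

The step from the stack to a layer: projecting the other layers on a product state would multiply the
error by a factor exponentially large in `L ^ 2`. The outcome of a measurement of the other layers
gives only a state with a small overlap with the ground state of the layer, which is then amplified by
the theorem of `Pool.Agent.Results.MP_953b23_mp.OverlapBoosting`, which uses the gap of the layer.
-/

set_option autoImplicit false
set_option linter.unusedSectionVars false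

open scoped BigOperators Matrix
open Finset Pool.Agent.TH235.PP Pool.Agent.Results.MP_953b23_mp.OverlapBoosting

namespace Pool.Agent.Results.MP_953b23_mp.StackedFamilies

open Pool.Agent.Helper99.PE

/-- A layer: a local dimension and vectors on all the tori. -/
structure Layer where
  dim : ℕ
  vec : ∀ L : ℕ, (Site L → Fin dim) → ℂ

/-- The vectors of the layer are the ground states of a gapped family. -/
def Layer.Gapped (l : Layer) : Prop :=
  ∃ (R : ℕ) (h : BoxOp l.dim R) (Δ : ℝ), GappedFamily h Δ l.vec

/-- The stack of the layers: the tensor product of the vectors. -/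
def stackAll : List Layer → Layer
  | [] => ⟨1, fun _ _ => 1⟩
  | l :: ls => ⟨l.dim * (stackAll ls).dim, fun L => stack (l.vec L) ((stackAll ls).vec L)⟩

section aux

theorem norm_all (ls : List Layer) (h : ∀ l ∈ ls, l.Gapped) :
    ∃ L₀ : ℕ, ∀ (L : ℕ) [NeZero L], L₀ ≤ L → normSq ((stackAll ls).vec L) = 1 := by
  induction ls with
  | nil =>
    refine ⟨0, fun L _ _ => ?_⟩
    show normSq (fun _ : Site L → Fin 1 => (1 : ℂ)) = 1
    unfold normSq
    simp
  | cons l ls ih =>
    obtain ⟨L₁, h1⟩ := ih fun x hx => h x (List.mem_cons_of_mem _ hx)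
    obtain ⟨R, hb, Δ, hF⟩ := h l List.mem_cons_self
    obtain ⟨L₂, h2⟩ := norm_family hF
    refine ⟨max L₁ L₂, fun L _ hL => ?_⟩
    have h3 : normSq ((stackAll (l :: ls)).vec L) =
        normSq (l.vec L) * normSq ((stackAll ls).vec L) :=
      normSq_stack finProdFinEquiv (l.vec L) ((stackAll ls).vec L)
    rw [h3, h1 L ((le_max_left _ _).trans hL), h2 L ((le_max_right _ _).trans hL), one_mul]

/-- exchange of two layers -/
def swapE {d d0 a b : ℕ} (e : Fin d × Fin a ≃ Fin b) : Fin d × Fin (d0 * a) ≃ Fin (d0 * b) where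
  toFun p := finProdFinEquiv ((finProdFinEquiv.symm p.2).1, e (p.1, (finProdFinEquiv.symm p.2).2))
  invFun y := ((e.symm (finProdFinEquiv.symm y).2).1,
    finProdFinEquiv ((finProdFinEquiv.symm y).1, (e.symm (finProdFinEquiv.symm y).2).2))
  left_inv p := by
    obtain ⟨i, x⟩ := p
    obtain ⟨⟨x1, x2⟩, rfl⟩ := finProdFinEquiv.surjective x
    simp only [Equiv.symm_apply_apply]
  right_inv y := by
    obtain ⟨⟨y1, y2⟩, rfl⟩ := finProdFinEquiv.surjective y
    simp only [Equiv.symm_apply_apply, Prod.mk.eta, Equiv.apply_symm_apply]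

theorem stack_swap {L d d0 a b : ℕ} (e : Fin d × Fin a ≃ Fin b) (ψ : (Site L → Fin d) → ℂ)
    (φ : (Site L → Fin a) → ℂ) (θ : (Site L → Fin d0) → ℂ) :
    stack θ (stackE e ψ φ) = stackE (swapE e) ψ (stack θ φ) := by
  funext s
  unfold stack stackE swapE
  simp only [Equiv.coe_fn_symm_mk, Equiv.symm_apply_apply]
  ring

theorem factor (ls : List Layer) (h : ∀ l ∈ ls, l.Gapped) (l : Layer) (hl : l ∈ ls) :
    ∃ (a : ℕ) (e : Fin l.dim × Fin a ≃ Fin (stackAll ls).dim)
      (Ψ' : ∀ L : ℕ, (Site L → Fin a) → ℂ),
      (∃ L₀ : ℕ, ∀ (L : ℕ) [NeZero L], L₀ ≤ L → normSq (Ψ' L) = 1) ∧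
      ∀ L, (stackAll ls).vec L = stackE e (l.vec L) (Ψ' L) := by
  induction ls with
  | nil => simp at hl
  | cons x ls ih =>
    have h' : ∀ l ∈ ls, l.Gapped := fun y hy => h y (List.mem_cons_of_mem _ hy)
    rcases List.mem_cons.1 hl with rfl | hl
    · exact ⟨(stackAll ls).dim, finProdFinEquiv, (stackAll ls).vec, norm_all ls h', fun L => rfl⟩
    · obtain ⟨a, e, Ψ', ⟨L₁, h1⟩, h2⟩ := ih h' hl
      obtain ⟨R, hb, Δ, hF⟩ := h x List.mem_cons_self
      obtain ⟨L₂, h3⟩ := norm_family hF
      refine ⟨x.dim * a, swapE e, fun L => stack (x.vec L) (Ψ' L), ⟨max L₁ L₂, fun L _ hL => ?_⟩,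
        fun L => ?_⟩
      · have h4 : normSq (stack (x.vec L) (Ψ' L)) = normSq (x.vec L) * normSq (Ψ' L) :=
          normSq_stack finProdFinEquiv (x.vec L) (Ψ' L)
        rw [h4, h1 L ((le_max_left _ _).trans hL), h3 L ((le_max_right _ _).trans hL), one_mul]
      · exact (congrArg (stack (x.vec L)) (h2 L)).trans
          (stack_swap e (l.vec L) (Ψ' L) (x.vec L))

theorem good_nil (k : ℕ) : Good (d := 1) (fun _ _ => 1) k := by
  refine fun c _ => ⟨0, 0, fun L _ _ => ⟨1, fun _ => 1, by simp, ?_, ?_⟩⟩
  · have h1 := peps_prod (L := L) (d := 1) fun _ _ => 1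
    have h2 : (prodVec fun (_ : Site L) (_ : Fin 1) => (1 : ℂ)) = fun _ => 1 := by
      funext s
      simp [prodVec]
    rw [h2] at h1
    exact h1
  · have h4 : normSq ((fun _ => 1 : (Site L → Fin 1) → ℂ) - fun _ => 1) = 0 := by
      rw [sub_self]
      unfold normSq
      simp
    refine le_trans (le_of_eq ?_) (Real.rpow_nonneg (Nat.cast_nonneg L) (-c))
    rw [h4, Real.sqrt_zero]

theorem good_all (ls : List Layer) (h : ∀ l ∈ ls, l.Gapped) {k : ℕ}
    (hG : ∀ l ∈ ls, Good l.vec k) : Good (stackAll ls).vec k := by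
  induction ls with
  | nil => exact good_nil k
  | cons x ls ih =>
    have h' : ∀ l ∈ ls, l.Gapped := fun y hy => h y (List.mem_cons_of_mem _ hy)
    obtain ⟨R, hb, Δ, hF⟩ := h x List.mem_cons_self
    exact good_stack (norm_family hF) (norm_all ls h') (hG x List.mem_cons_self)
      (ih h' fun l hl => hG l (List.mem_cons_of_mem _ hl))

end aux

/-- **Theorem.** For a stack of finitely many gapped families the following are equivalent: the
conclusion of the open problem (with the exponent `k`) holds for the stack; the stack has an overlap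
of at least `exp (-C (log L)^k)` with vectors made by circuits from PEPS, all of quasi-polynomial cost;
the conclusion holds for every layer. -/
theorem result (ls : List Layer) (h : ∀ l ∈ ls, l.Gapped) (k : ℕ) (hk : 1 ≤ k) :
    List.TFAE [
      ∀ c : ℝ, 0 < c → ∃ C : ℝ, Approx (stackAll ls).vec k C fun L => (L : ℝ) ^ (-c),
      ∃ C : ℝ, CircuitOverlap (stackAll ls).vec k C,
      ∀ l ∈ ls, ∀ c : ℝ, 0 < c → ∃ C : ℝ, Approx l.vec k C fun L => (L : ℝ) ^ (-c)] := by
  tfae_have 1 → 2 := fun h1 => good_to_circuit (norm_all ls h) h1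
  tfae_have 2 → 3 := by
    intro h2 l hl
    obtain ⟨R, hb, Δ, hF⟩ := h l hl
    obtain ⟨a, e, Ψ', hn, he⟩ := factor ls h l hl
    exact factor_good e hk hF hn he h2
  tfae_have 3 → 1 := fun h3 => good_all ls h h3
  tfae_finish

end Pool.Agent.Results.MP_953b23_mp.StackedFamilies
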