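import Pool.Agent.Helper22P.Fin

/-!
# PEPS approximation of the ground states of symmetry sectors

`H_L = ham h L` is the sum of the translates `term h u` of the interaction `h` on the `L × L` torus. For
every large `L` let `P_L` be an orthogonal projection which commutes with all the terms of `H_L`, and
let the unit vector `Ψ_L` in the range of `P_L` be the ground state of `H_L` in this range: its
eigenvalue is simple there, and the other eigenvalues of `H_L` in the range of `P_L` are larger by at
least `Δ` (`Sector`, `SectorGround` in `Pool/Agent/Helper22P/Fin.lean`, `Cmp.lean`). Nothing is assumed on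
the spectrum of `H_L` in the other sectors: it may have smaller eigenvalues, or eigenvalues without
gap, or exponentially many eigenvalues in bounded intervals. If the family is gapped with unique ground
state as in the open problem, the assumption says that `P_L` commutes with the terms and fixes `Ψ_L`.

Examples of `P_L`: fixed particle number or charge; the constraints of a lattice gauge theory; the
span of any set of configurations (vectors of the product basis) which is closed under the terms, for
instance a Krylov sector of a constrained model, or a fixed configuration of classical labels; joint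
eigenspaces of operators on closed loops which commute with all terms (in topological phases, where
the ground state is not unique on the torus).

`SectorApprox P Ψ k C δ`: for all large `L` the vector `Ψ_L` is approximated within `δ L` by a PEPS of bond
dimension at most `exp (C (log L)^k)` which lies in the range of `P_L` (a symmetric PEPS).

`SectorOverlap P Ψ k C`: for all large `L` some unit PEPS in the range of `P_L` of bond dimension at most
`exp (C (log L)^k)` has overlap at least `exp (-C (log L)^k)` with `Ψ_L`.

`FewSectorStates h P Ψ k C`: for all large `L` the projection `P_L` maps the vectors of the product basis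
to PEPS of bond dimension at most `exp (C (log L)^k)` (if `P_L` is diagonal in the product basis these
images have bond dimension one, see `cols_of_diagonal` below), and for all `m` the eigenvectors of `H_L`
in the range of `P_L` with eigenvalues at most `E_L + m`, where `E_L` is the energy of `Ψ_L`, span a space
of dimension at most `exp (C (m + 1) (log L)^k)`.

Proof. A truncated product expansion of `exp (-β H_L)` is compressed to the range of `P_L` (all its
factors commute with `P_L`), where it is controlled by the spectrum of the sector only: in the
operator norm for the amplification, in the Frobenius norm for the comparison of the columns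
`exp (-β H_L) P_L |t⟩` with the partition function of the sector.
-/

set_option autoImplicit false
set_option linter.unusedSectionVars false

open scoped BigOperators Matrix
open Finset Pool.Agent.TH235.PP

namespace Pool.Agent.Results.MP_953b23_mp.SymmetrySectors

open Pool.Agent.Helper22P

/-- For all large `L` the projection `P L` commutes with all terms and `Ψ L` is the ground state of the
sector, with gap `Δ`. -/
structure SectorFamily {d R : ℕ} (h : BoxOp d R) (Δ : ℝ) (P : ∀ L : ℕ, TorOp d L)
    (Ψ : ∀ L : ℕ, (Site L → Fin d) → ℂ) : Prop where
  range_pos : 0 < R
  herm : h.IsHermitian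
  gap_pos : 0 < Δ
  sector : ∃ L₀ : ℕ, ∀ (L : ℕ) [NeZero L], L₀ ≤ L → Sector h Δ L (P L) (Ψ L)

/-- a projection which is diagonal in the product basis maps the vectors of the basis to vectors of
bond dimension one -/
theorem cols_of_diagonal {d L : ℕ} [NeZero L] (a : (Site L → Fin d) → ℂ) (t : Site L → Fin d) :
    IsPEPS 1 (Matrix.diagonal a *ᵥ Pi.single t 1) := by
  have h1 : Matrix.diagonal a *ᵥ Pi.single t 1 = a t • (Pi.single t 1 : (Site L → Fin d) → ℂ) := by
    funext s
    rw [Matrix.mulVec_diagonal, Pi.smul_apply, smul_eq_mul, Pi.single_apply]
    split_ifs with hs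
    · rw [hs]
    · ring
  rw [h1, ← basis_contract t]
  exact (isPEPS_contract (K := Fin 1) _).smul _

/-- **Theorem.** Let `Ψ_L` be the ground states of sectors `P_L`, with gaps `Δ` inside the sectors, and
let `k ≥ 1`. The following are equivalent:

* the conclusion of the open problem with symmetric PEPS: for every `c > 0` the vectors `Ψ_L` are
  approximated within `L^(-c)` by PEPS of bond dimension `exp (C (log L)^k)` in the range of `P_L`;
* the same for one `c > 0`;
* the same with the errors `exp (-s (log L)^k)`, for every `s > 0`;
* some PEPS in the range of `P_L` of bond dimension `exp (C (log L)^k)` have overlap at least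
  `exp (-C (log L)^k)` with `Ψ_L`.

They hold if the range of `P_L` contains few low energy states. -/
theorem result {d R : ℕ} (h : BoxOp d R) (Δ : ℝ) (P : ∀ L : ℕ, TorOp d L)
    (Ψ : ∀ L : ℕ, (Site L → Fin d) → ℂ) (hF : SectorFamily h Δ P Ψ) (k : ℕ) (hk : 1 ≤ k) :
    List.TFAE [
      ∀ c : ℝ, 0 < c → ∃ C : ℝ, SectorApprox P Ψ k C fun L => (L : ℝ) ^ (-c),
      ∃ c : ℝ, 0 < c ∧ ∃ C : ℝ, SectorApprox P Ψ k C fun L => (L : ℝ) ^ (-c),
      ∀ s : ℝ, 0 < s → ∃ C : ℝ, SectorApprox P Ψ k C fun L => Real.exp (-(s * Real.log L ^ k)),
      ∃ C : ℝ, SectorOverlap P Ψ k C] ∧
    ((∃ C : ℝ, FewSectorStates h P Ψ k C) →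
      ∀ c : ℝ, 0 < c → ∃ C : ℝ, SectorApprox P Ψ k C fun L => (L : ℝ) ^ (-c)) := by
  constructor
  · tfae_have 1 → 2 := fun h1 => ⟨1, one_pos, h1 1 one_pos⟩
    tfae_have 2 → 4 := fun ⟨c, hc, C, hC⟩ => one_to_over hF.sector hc hC
    tfae_have 4 → 3 := fun ⟨C, hC⟩ s hs =>
      over_to_approx hF.range_pos hF.herm hF.gap_pos k C hk hF.sector hC s hs.le
    tfae_have 3 → 1 := fun h3 c hc => by
      obtain ⟨C, hC⟩ := h3 c hc
      exact ⟨C, sector_rpow hk hc hC⟩
    tfae_finish
  · rintro ⟨C, hC⟩ c hc
    obtain ⟨C', hC'⟩ := few_to_approx hF.range_pos hF.herm hF.gap_pos k C hk hF.sector hC c hc.le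
    exact ⟨C', sector_rpow hk hc hC'⟩

end Pool.Agent.Results.MP_953b23_mp.SymmetrySectors
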